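import Pool.Agent.ASD.Stmts3
import Pool.Agent.Helper69_ASO.CJT

/-!
# Squad ASD, row CJD: conjugation with the inertial group
-/

open scoped BigOperators

noncomputable section

namespace Pool.Agent.PP.SD.H69

open Pool.Agent.Helper51_AWC Pool.Agent.Helper79_WRA Pool.Agent.PP Pool.Agent.PP.KF
open Pool.Agent.PP.K9 Pool.Agent.PP.K9.H97 Pool.Agent.PP.H75 Pool.Agent.PP.T3 Pool.Agent.PP.SO
open Pool.Agent.PP.SO.H69

attribute [local instance] Ideal.Quotient.field

theorem rw_map {V₀ : Type} [CommGroup V₀] {E₀ : Subgroup (MulAut V₀)} {σ : MulAut V₀}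
    (hσ : σ ∈ E₀) {W : Subgroup V₀} (hW : Rw E₀ W) : Rw E₀ (W.map σ.toMonoidHom) := by
  refine ⟨?_, ?_⟩
  · intro h0
    exact hW.1 ((Subgroup.map_eq_bot_iff_of_injective W (f := σ.toMonoidHom) σ.injective).1 h0)
  · intro τ hτ h
    have h1 : σ⁻¹ * τ * σ = 1 := by
      refine hW.2 _ (E₀.mul_mem (E₀.mul_mem (E₀.inv_mem hσ) hτ) hσ) ?_
      intro w hw
      have h2 := h (σ w) ⟨w, hw, rfl⟩
      rw [MulAut.mul_apply, MulAut.mul_apply, h2, MulAut.inv_apply, MulEquiv.symm_apply_apply]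
    have h3 : τ = σ * (σ⁻¹ * τ * σ) * σ⁻¹ := by group
    rw [h3, h1]
    group

theorem cjd (hLbu : LbuStmt) : CjdStmt := by
  intro ℓ _ M _ hM hℓ2 V₀ G _ _ _ _ E₀ _ B hB0 σ hσ t ht hact W
  have hF : GoodF ℓ (FF M) := H50.fld ℓ Fact.out M hM
  have hld := hB0.ld
  have hcj : ∀ W : Subgroup V₀, cj t (B.b W) = B.b (W.map σ.toMonoidHom) := by
    intro W
    exact (hLbu ℓ (FF M) hF V₀ G B.e B.g B.i hB0.inj hld).2.1 _ _ _
      (lb_act hact ht hld.blk.1.1 (hB0.lb W)) (hB0.lb _)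
  have hmem : ∀ (W : Subgroup V₀) (x : G), t * x * t⁻¹ ∈ B.C (W.map σ.toMonoidHom) ↔
      x ∈ B.C W := by
    intro W x
    rw [mem_C_act B hact]
    have : t⁻¹ * (t * x * t⁻¹) * t = x := by group
    rw [this]
  have hcard : ∀ W : Subgroup V₀, Nat.card (B.C (W.map σ.toMonoidHom)) = Nat.card (B.C W) :=
    fun W => (Nat.card_congr (ph B hact W).toEquiv).symm
  have hfun : ∀ W : Subgroup V₀, (fun y : B.C (W.map σ.toMonoidHom) =>
      (fun s : B.C W => B.b W s) ((ph B hact W).symm y)) =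
      fun y : B.C (W.map σ.toMonoidHom) => B.b (W.map σ.toMonoidHom) y := by
    intro W
    funext y
    rw [← hcj W]
    change B.b W (((ph B hact W).symm y : B.C W) : G) = B.b W (t⁻¹ * y * t)
    rw [ph_symm_coe]
  have hblk : ∀ W : Subgroup V₀, IsBlk (fun s : B.C W => B.b W s) := fun W => (hB0.lb W).blk.blk
  have hbh : ∀ (W : Subgroup V₀) (x : G), bh B (W.map σ.toMonoidHom) (t * x * t⁻¹) =
      bh B W x := by
    intro W x
    unfold bh
    by_cases hx : x ∈ B.C W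
    · rw [H46.ext0_of_mem _ ((hmem W x).2 hx), H46.ext0_of_mem _ hx]
      have h1 := H62.eh_equiv (M := M) (ph B hact W) (hblk W).1.1 ⟨x, hx⟩
      rw [hfun W] at h1
      exact h1
    · rw [H46.ext0_of_not_mem _ (fun h' => hx ((hmem W x).1 h')), H46.ext0_of_not_mem _ hx]
  refine ⟨hcj W, hmem W, hcard W, hbh W, ?_, ?_⟩
  · intro c x
    have hsup : W.map σ.toMonoidHom ⊔ Subgroup.zpowers (σ c) =
        (W ⊔ Subgroup.zpowers c).map σ.toMonoidHom := by
      rw [Subgroup.map_sup, MonoidHom.map_zpowers]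
      rfl
    unfold fc
    rw [hsup, hcard]
    congr 1
    rw [← finsum_comp_equiv (ph B hact W).toEquiv]
    apply finsum_congr
    intro z
    change bh B ((W ⊔ Subgroup.zpowers c).map σ.toMonoidHom)
      ((B.i (σ c))⁻¹ * ((t * (z : G) * t⁻¹)⁻¹ * (t * x * t⁻¹) * (t * (z : G) * t⁻¹))) = _
    rw [← hbh (W ⊔ Subgroup.zpowers c) ((B.i c)⁻¹ * ((z : G)⁻¹ * x * z)), ← hact c]
    congr 1
    group
  · intro hB hW
    have hW' : Rw E₀ (W.map σ.toMonoidHom) := rw_map hσ hW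
    have hD : B.D (W.map σ.toMonoidHom) = B.D W := by
      have h1 := H85.dg_equiv (ph B hact W) (hblk W).1.1 (hB.dg W hW)
      rw [hfun W] at h1
      exact H41.dg_uniq M hM (hblk _) (hB.dg _ hW') h1
    have hUU : B.S (W.map σ.toMonoidHom) = B.S W → B.U (W.map σ.toMonoidHom) = B.U W := by
      intro hS
      unfold Bk.U
      rw [hS, hcard, hD]
    have hS : B.S (W.map σ.toMonoidHom) = B.S W := by
      by_contra hne
      have hneg : B.S (W.map σ.toMonoidHom) = - B.S W := by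
        rcases hB.sg W hW with h1 | h1 <;> rcases hB.sg _ hW' with h2 | h2 <;>
          rw [h1, h2] at hne ⊢ <;> first | rfl | exact absurd rfl hne | norm_num
      have hUn : B.U (W.map σ.toMonoidHom) = - B.U W := by
        unfold Bk.U
        rw [hneg, hcard, hD]
        push_cast
        ring
      obtain ⟨r, hr, hr'⟩ := hB.un W hW
      obtain ⟨r', hr1, hr1'⟩ := hB.un _ hW'
      rw [hUn, hr'] at hr1'
      have h2 : (2 : ℚ) = ℓ * (-(r + r')) := by linarith
      have h3 : -(r + r') ∈ SOR.Rl ℓ := neg_mem (add_mem hr hr1)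
      obtain ⟨s, hs⟩ : ∃ s, s = -(r + r') := ⟨_, rfl⟩
      rw [← hs] at h2 h3
      have h4 : ¬ ℓ ∣ s.den := h3
      have hℓ : ℓ.Prime := Fact.out
      have h5 : (2 : ℚ) * s.den = ℓ * s.num := by
        rw [h2]
        have := Rat.mul_den_eq_num s
        rw [mul_assoc, this]
      have h6 : (2 : ℤ) * s.den = ℓ * s.num := by exact_mod_cast h5
      have h7 : (ℓ : ℤ) ∣ 2 * s.den := ⟨s.num, h6⟩
      have h8 : ℓ ∣ 2 * s.den := by exact_mod_cast h7
      rcases (hℓ.dvd_mul).1 h8 with h9 | h9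
      · exact hℓ2 ((Nat.prime_dvd_prime_iff_eq hℓ Nat.prime_two).1 h9)
      · exact h4 h9
    exact ⟨hD, hS, hUU hS⟩

end Pool.Agent.PP.SD.H69
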